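import Mathlib

set_option autoImplicit false

/-! Finitely many valuations separate a finitely generated group modulo constants. -/

namespace Pool.Agent.K1H41.PA

open Filter

section

variable {k F : Type*} [Field k] [Field F] [Algebra k F]

theorem mem_range_of_integral [IsAlgClosed k] {x : F} (hx : IsIntegral k x) :
    ∃ a : k, algebraMap k F a = x := by
  have h1 := IsAlgClosed.degree_eq_one_of_irreducible k (minpoly.irreducible hx)
  obtain ⟨a, ha⟩ := minpoly.mem_range_of_degree_eq_one k x h1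
  exact ⟨a, ha⟩

/-- a valuation ring which contains the constants but not the given element -/
theorem exists_val [IsAlgClosed k] (h : F) (hh : ∀ a : k, algebraMap k F a ≠ h) :
    ∃ V : ValuationSubring F, (∀ a : k, algebraMap k F a ∈ V) ∧ h ∉ V := by
  set R : Subring F := (⊥ : Subalgebra k F).toSubring with hR
  have : IsIntegrallyClosedIn R F := by
    rw [Subring.isIntegrallyClosedIn_iff]
    intro x hx
    have hx' : IsIntegral (⊥ : Subalgebra k F) x := hx
    have : Algebra.IsIntegral k (⊥ : Subalgebra k F) := ⟨fun y => by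
      obtain ⟨y, hy⟩ := y
      obtain ⟨a, rfl⟩ := Algebra.mem_bot.mp hy
      exact isIntegral_algebraMap (R := k) (A := (⊥ : Subalgebra k F)) (x := a)⟩
    have h2 : IsIntegral k x := isIntegral_trans x hx'
    obtain ⟨a, rfl⟩ := mem_range_of_integral h2
    exact Algebra.mem_bot.mpr ⟨a, rfl⟩
  have hhR : h ∉ R := by
    intro hmem
    obtain ⟨a, ha⟩ := Algebra.mem_bot.mp hmem
    exact hh a ha
  obtain ⟨V, hV, hx⟩ := Subring.exists_le_valuationSubring_of_isIntegrallyClosedIn hhR
  exact ⟨V, fun a => hV (Algebra.mem_bot.mpr ⟨a, rfl⟩), hx⟩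

/-- constants have valuation one -/
theorem val_const {V : ValuationSubring F} (hV : ∀ a : k, algebraMap k F a ∈ V) {a : k} (ha : a ≠ 0) :
    V.valuation (algebraMap k F a) = 1 := by
  have h1 : V.valuation (algebraMap k F a) ≤ 1 := (V.valuation_le_one_iff _).mpr (hV a)
  have h2 : V.valuation (algebraMap k F a⁻¹) ≤ 1 := (V.valuation_le_one_iff _).mpr (hV a⁻¹)
  rw [map_inv₀, map_inv₀] at h2
  have h0 : V.valuation (algebraMap k F a) ≠ 0 := by
    rw [Ne, map_eq_zero, map_eq_zero]; exact ha
  refine le_antisymm h1 ?_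
  have := (inv_le_one₀ (zero_lt_iff.mpr h0)).mp h2
  exact this

/-- elements with different values are linearly independent over the constants -/
theorem linInd_of_val {V : ValuationSubring F} (hV : ∀ a : k, algebraMap k F a ∈ V) {ι : Type*}
    (y : ι → F) (hy0 : ∀ i, y i ≠ 0)
    (hy : ∀ i j, V.valuation (y i) = V.valuation (y j) → i = j) : LinearIndependent k y := by
  classical
  rw [linearIndependent_iff']
  intro s a ha
  by_contra hcon
  push Not at hcon
  obtain ⟨i1, hi1, hai1⟩ := hcon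
  set t := s.filter fun i => a i ≠ 0 with ht
  have htne : t.Nonempty := ⟨i1, by rw [ht, Finset.mem_filter]; exact ⟨hi1, hai1⟩⟩
  obtain ⟨i0, hi0, hmax⟩ := Finset.exists_max_image t (fun i => V.valuation (y i)) htne
  have hval : ∀ i ∈ t, V.valuation (a i • y i) = V.valuation (y i) := by
    intro i hi
    rw [ht, Finset.mem_filter] at hi
    rw [Algebra.smul_def, map_mul, val_const hV hi.2, one_mul]
  have hsum : ∑ i ∈ t, a i • y i = 0 := by
    rw [← ha, ht, Finset.sum_filter]
    refine Finset.sum_congr rfl fun i _ => ?_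
    split_ifs with h
    · rfl
    · push Not at h; rw [h, zero_smul]
  rw [← Finset.add_sum_erase _ _ hi0] at hsum
  have h3 : V.valuation (∑ i ∈ t.erase i0, a i • y i) < V.valuation (y i0) := by
    apply Valuation.map_sum_lt
    · rw [Ne, map_eq_zero]; exact hy0 i0
    · intro i hi
      have hit := Finset.mem_of_mem_erase hi
      rw [hval i hit]
      refine lt_of_le_of_ne (hmax i hit) fun h => ?_
      exact Finset.ne_of_mem_erase hi (hy i i0 h)
  have h4 : a i0 • y i0 = -∑ i ∈ t.erase i0, a i • y i := eq_neg_of_add_eq_zero_left hsum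
  have h5 := hval i0 hi0
  rw [h4, Valuation.map_neg] at h5
  exact absurd h5 h3.ne

/-- a finite dimensional space has finitely many values -/
theorem finite_values {V : ValuationSubring F} (hV : ∀ a : k, algebraMap k F a ∈ V)
    (Y : Submodule k F) (hY : Y.FG) : (V.valuation '' {y | y ∈ Y ∧ y ≠ 0}).Finite := by
  classical
  by_contra hinf
  have hinf : (V.valuation '' {y | y ∈ Y ∧ y ≠ 0}).Infinite := hinf
  have : Module.Finite k Y := Module.Finite.iff_fg.mpr hY
  obtain ⟨T, hT, hTc⟩ := hinf.exists_subset_card_eq (Module.finrank k Y + 1)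
  choose! f hf using fun (γ : V.ValueGroup) (hγ : γ ∈ (T : Set V.ValueGroup)) => hT hγ
  have hlin : LinearIndependent k (fun γ : T => f γ.1) := by
    apply linInd_of_val hV
    · intro γ; exact (hf γ.1 γ.2).1.2
    · intro γ δ h
      rw [(hf γ.1 γ.2).2, (hf δ.1 δ.2).2] at h
      exact Subtype.ext h
  have hlin2 : LinearIndependent k (fun γ : T => (⟨f γ.1, (hf γ.1 γ.2).1.1⟩ : Y)) := by
    apply LinearIndependent.of_comp Y.subtype
    exact hlin
  have := hlin2.fintype_card_le_finrank
  rw [Fintype.card_coe, hTc] at this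
  omega

end

section

variable {F : Type*} [Field F]

/-- the value of a unit -/
noncomputable def vl (V : ValuationSubring F) : Additive Fˣ →+ Additive (V.ValueGroup)ˣ :=
  (Units.map (V.valuation : F →* V.ValueGroup)).toAdditive

theorem vl_eq_zero {V : ValuationSubring F} (x : Fˣ) :
    vl V (Additive.ofMul x) = 0 ↔ V.valuation (x : F) = 1 := by
  constructor
  · intro h
    have h1 : Units.map (V.valuation : F →* V.ValueGroup) x = 1 := h
    have h2 := congrArg Units.val h1
    simpa using h2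
  · intro h
    have h1 : Units.map (V.valuation : F →* V.ValueGroup) x = 1 := by
      ext; simpa using h
    exact h1

theorem unit_pow_eq_one {Γ : Type*} [LinearOrderedCommGroupWithZero Γ] {x : Γ} {n : ℕ} (hn : n ≠ 0)
    (h : x ^ n = 1) : x = 1 := (pow_eq_one_iff_of_nonneg zero_le hn).mp h

instance torsion_free (V : ValuationSubring F) : IsAddTorsionFree (Additive (V.ValueGroup)ˣ) := by
  refine ⟨fun n hn => ?_⟩
  intro x y hxy
  have h1 : (Additive.toMul x) ^ n = (Additive.toMul y) ^ n := hxy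
  have h2 : ((Additive.toMul x / Additive.toMul y : (V.ValueGroup)ˣ) : V.ValueGroup) ^ n = 1 := by
    rw [← Units.val_pow_eq_pow_val, div_pow, h1, div_self', Units.val_one]
  have h3 := unit_pow_eq_one hn h2
  have h4 : Additive.toMul x / Additive.toMul y = 1 := Units.ext h3
  have h5 : Additive.toMul x = Additive.toMul y := div_eq_one.mp h4
  exact h5

end

section

variable {k F : Type*} [Field k] [Field F] [Algebra k F]

theorem rank_nullity {A B : Type*} [AddCommGroup A] [AddCommGroup B] [Module.Finite ℤ A]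
    (ψ : A →ₗ[ℤ] B) : Module.finrank ℤ (LinearMap.range ψ) + Module.finrank ℤ (LinearMap.ker ψ) =
      Module.finrank ℤ A := by
  have h := Submodule.finrank_quotient_add_finrank (LinearMap.ker ψ)
  rw [← h, (ψ.quotKerEquivRange).finrank_eq]

theorem sep_aux [IsAlgClosed k] (r : ℕ) : ∀ N : Submodule ℤ (Additive Fˣ), N.FG →
    Module.finrank ℤ N ≤ r →
    ∃ 𝒱 : Set (ValuationSubring F), 𝒱.Finite ∧ (∀ V ∈ 𝒱, ∀ a : k, algebraMap k F a ∈ V) ∧
      ∀ x : Fˣ, Additive.ofMul x ∈ N → (∀ V ∈ 𝒱, V.valuation (x : F) = 1) →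
        ∃ a : k, algebraMap k F a = x := by
  induction r with
  | zero =>
    intro N hN hr
    refine ⟨∅, Set.finite_empty, by simp, ?_⟩
    intro x hx _
    -- rank zero: torsion
    by_contra hcon
    push Not at hcon
    obtain ⟨V, hV, hxV⟩ := exists_val (k := k) (x : F) hcon
    have : Module.Finite ℤ N := Module.Finite.iff_fg.mpr hN
    set ψ : N →ₗ[ℤ] Additive (V.ValueGroup)ˣ := (vl V).toIntLinearMap.comp N.subtype with hψ
    have h1 : ψ ⟨Additive.ofMul x, hx⟩ ≠ 0 := by
      intro h
      have h2 : vl V (Additive.ofMul x) = 0 := h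
      rw [vl_eq_zero] at h2
      exact hxV ((V.valuation_le_one_iff _).mp h2.le)
    have : Nontrivial (LinearMap.range ψ) := ⟨⟨⟨_, ⟨_, rfl⟩⟩, 0, fun h => h1 (by
      have := congrArg Subtype.val h
      simpa using this)⟩⟩
    have h3 : 0 < Module.finrank ℤ (LinearMap.range ψ) := Module.finrank_pos
    have h4 := rank_nullity ψ
    omega
  | succ r ih =>
    intro N hN hr
    by_cases hall : ∀ x : Fˣ, Additive.ofMul x ∈ N → ∃ a : k, algebraMap k F a = x
    · exact ⟨∅, Set.finite_empty, by simp, fun x hx _ => hall x hx⟩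
    push Not at hall
    obtain ⟨x, hx, hxk⟩ := hall
    obtain ⟨V, hV, hxV⟩ := exists_val (k := k) (x : F) hxk
    have : Module.Finite ℤ N := Module.Finite.iff_fg.mpr hN
    have : IsNoetherian ℤ N := isNoetherian_of_isNoetherianRing_of_finite ℤ N
    set ψ : N →ₗ[ℤ] Additive (V.ValueGroup)ˣ := (vl V).toIntLinearMap.comp N.subtype with hψ
    have h1 : ψ ⟨Additive.ofMul x, hx⟩ ≠ 0 := by
      intro h
      have h2 : vl V (Additive.ofMul x) = 0 := h
      rw [vl_eq_zero] at h2
      exact hxV ((V.valuation_le_one_iff _).mp h2.le)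
    have : Nontrivial (LinearMap.range ψ) := ⟨⟨⟨_, ⟨_, rfl⟩⟩, 0, fun h => h1 (by
      have := congrArg Subtype.val h
      simpa using this)⟩⟩
    have h3 : 0 < Module.finrank ℤ (LinearMap.range ψ) := Module.finrank_pos
    have h4 := rank_nullity ψ
    set N' : Submodule ℤ (Additive Fˣ) := (LinearMap.ker ψ).map N.subtype with hN'
    have hfr : Module.finrank ℤ N' = Module.finrank ℤ (LinearMap.ker ψ) :=
      (LinearEquiv.finrank_eq (Submodule.equivMapOfInjective N.subtype N.injective_subtype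
        (LinearMap.ker ψ))).symm
    have hfg : N'.FG := (IsNoetherian.noetherian (LinearMap.ker ψ)).map _
    obtain ⟨𝒱, hfin, hk, hsep⟩ := ih N' hfg (by omega)
    refine ⟨insert V 𝒱, hfin.insert V, ?_, ?_⟩
    · rintro W (rfl | hW)
      · exact hV
      · exact hk W hW
    · intro y hy hval
      refine hsep y ?_ fun W hW => hval W (Set.mem_insert_of_mem _ hW)
      refine ⟨⟨Additive.ofMul y, hy⟩, ?_, rfl⟩
      have := hval V (Set.mem_insert _ _)
      rw [← vl_eq_zero] at this
      exact this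

/-- finitely many valuations separate the elements of a finitely generated group modulo constants -/
theorem sep [IsAlgClosed k] (G : Subgroup Fˣ) (hG : G.FG) :
    ∃ 𝒱 : Set (ValuationSubring F), 𝒱.Finite ∧ (∀ V ∈ 𝒱, ∀ a : k, algebraMap k F a ∈ V) ∧
      ∀ x ∈ G, (∀ V ∈ 𝒱, V.valuation (x : F) = 1) → ∃ a : k, algebraMap k F a = x := by
  have hfg : (AddSubgroup.toIntSubmodule (Subgroup.toAddSubgroup G)).FG := by
    rw [Submodule.fg_iff_addSubgroup_fg]
    have := (Subgroup.fg_iff_add_fg G).mp hG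
    simpa using this
  obtain ⟨𝒱, h1, h2, h3⟩ := sep_aux (k := k) _ _ hfg le_rfl
  exact ⟨𝒱, h1, h2, fun x hx => h3 x hx⟩

/-- **Step B**: a sequence in a finitely generated group all of whose members are quotients of
elements of a finite dimensional space is, on a set of the ultrafilter, constant modulo constants -/
theorem stepB [IsAlgClosed k] (G : Subgroup Fˣ) (hG : G.FG) (𝒰 : Ultrafilter ℕ) (Y : Submodule k F)
    (hY : Y.FG) (g : ℕ → Fˣ) (hg : ∀ n, g n ∈ G)
    (h : ∀ᶠ n in (𝒰 : Filter ℕ), ∃ a ∈ Y, ∃ b ∈ Y, b ≠ 0 ∧ (g n : F) = a / b) :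
    ∃ h ∈ G, ∀ᶠ n in (𝒰 : Filter ℕ), ∃ a : k, (g n : F) = (h : F) * algebraMap k F a := by
  obtain ⟨𝒱, hfin, hk, hsep⟩ := sep (k := k) G hG
  have h1 : ∀ V ∈ 𝒱, ∃ γ : V.ValueGroup, ∀ᶠ n in (𝒰 : Filter ℕ), V.valuation (g n : F) = γ := by
    intro V hV
    set S := V.valuation '' {y | y ∈ Y ∧ y ≠ 0} with hS
    have hSf : S.Finite := finite_values (hk V hV) Y hY
    have hSS : (Set.image2 (fun x y => x / y) S S).Finite := Set.Finite.image2 _ hSf hSf
    have h2 : ∀ᶠ n in (𝒰 : Filter ℕ), ∃ γ ∈ Set.image2 (fun x y => x / y) S S,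
        V.valuation (g n : F) = γ := by
      filter_upwards [h] with n hn
      obtain ⟨a, ha, b, hb, hb0, hab⟩ := hn
      refine ⟨V.valuation a / V.valuation b, ⟨_, ⟨a, ⟨ha, ?_⟩, rfl⟩, _, ⟨b, ⟨hb, hb0⟩, rfl⟩, rfl⟩, ?_⟩
      · rintro rfl
        rw [zero_div] at hab
        exact (g n).ne_zero hab
      · rw [hab, map_div₀]
    rw [Ultrafilter.eventually_exists_mem_iff hSS] at h2
    obtain ⟨γ, -, hγ⟩ := h2
    exact ⟨γ, hγ⟩
  choose! γ hγ using h1
  have h3 : ∀ᶠ n in (𝒰 : Filter ℕ), ∀ V ∈ 𝒱, V.valuation (g n : F) = γ V :=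
    (hfin.eventually_all).mpr hγ
  obtain ⟨n0, hn0⟩ := h3.exists
  refine ⟨g n0, hg n0, ?_⟩
  filter_upwards [h3] with n hn
  obtain ⟨a, ha⟩ := hsep (g n / g n0) (G.div_mem (hg n) (hg n0)) fun V hV => by
    rw [Units.val_div_eq_div_val, map_div₀, hn V hV, hn0 V hV, div_self]
    rw [← hn V hV, Ne, map_eq_zero]
    exact (g n).ne_zero
  refine ⟨a, ?_⟩
  rw [ha, Units.val_div_eq_div_val, mul_div_cancel₀]
  exact (g n0).ne_zero

end

end Pool.Agent.K1H41.PA
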