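import Pool.Agent.K1H41.PA.StepA
import Pool.Agent.K1H41.PA.StepB

set_option autoImplicit false

/-! The differential subfield of germs of quotients of elements of finite dimensional spaces. -/

namespace Pool.Agent.K1H41.PA

open Filter

variable {k F : Type*} [Field k] [Field F] [Algebra k F] (𝒰 : Ultrafilter ℕ)

variable (k) in
/-- a germ of quotients of elements of a finite dimensional space -/
def Rep (x : Germ (𝒰 : Filter ℕ) F) : Prop :=
  ∃ Y : Submodule k F, Y.FG ∧ ∃ a b : ℕ → F, (∀ n, a n ∈ Y) ∧ (∀ n, b n ∈ Y) ∧ (∀ n, b n ≠ 0) ∧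
    x = ((fun n => a n / b n : ℕ → F) : Germ (𝒰 : Filter ℕ) F)

variable (k F) in
/-- the subfield of these germs -/
def MF : Subfield (Germ (𝒰 : Filter ℕ) F) where
  carrier := {x | Rep k 𝒰 x}
  mul_mem' := by
    rintro _ _ ⟨Y, hY, a, b, ha, hb, hb0, rfl⟩ ⟨Y', hY', a', b', ha', hb', hb0', rfl⟩
    refine ⟨Y * Y', hY.mul hY', fun n => a n * a' n, fun n => b n * b' n,
      fun n => Submodule.mul_mem_mul (ha n) (ha' n), fun n => Submodule.mul_mem_mul (hb n) (hb' n),
      fun n => mul_ne_zero (hb0 n) (hb0' n), ?_⟩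
    rw [← Germ.coe_mul]
    congr 1
    funext n
    exact div_mul_div_comm _ _ _ _
  one_mem' := by
    refine ⟨Submodule.span k {1}, Submodule.fg_span_singleton 1, fun _ => 1, fun _ => 1,
      fun _ => Submodule.mem_span_singleton_self 1, fun _ => Submodule.mem_span_singleton_self 1,
      fun _ => one_ne_zero, ?_⟩
    simp only [div_one]
    rfl
  add_mem' := by
    rintro _ _ ⟨Y, hY, a, b, ha, hb, hb0, rfl⟩ ⟨Y', hY', a', b', ha', hb', hb0', rfl⟩
    refine ⟨Y * Y', hY.mul hY', fun n => a n * b' n + b n * a' n, fun n => b n * b' n,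
      fun n => (Y * Y').add_mem (Submodule.mul_mem_mul (ha n) (hb' n))
        (Submodule.mul_mem_mul (hb n) (ha' n)), fun n => Submodule.mul_mem_mul (hb n) (hb' n),
      fun n => mul_ne_zero (hb0 n) (hb0' n), ?_⟩
    rw [← Germ.coe_add]
    congr 1
    funext n
    exact div_add_div _ _ (hb0 n) (hb0' n)
  zero_mem' := by
    refine ⟨Submodule.span k {1}, Submodule.fg_span_singleton 1, fun _ => 0, fun _ => 1,
      fun _ => Submodule.zero_mem _, fun _ => Submodule.mem_span_singleton_self 1,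
      fun _ => one_ne_zero, ?_⟩
    simp only [div_one]
    rfl
  neg_mem' := by
    rintro _ ⟨Y, hY, a, b, ha, hb, hb0, rfl⟩
    refine ⟨Y, hY, fun n => -a n, b, fun n => Y.neg_mem (ha n), hb, hb0, ?_⟩
    rw [← Germ.coe_neg]
    congr 1
    funext n
    exact (neg_div _ _).symm
  inv_mem' := by
    rintro _ ⟨Y, hY, a, b, ha, hb, hb0, rfl⟩
    classical
    by_cases h0 : ∀ᶠ n in (𝒰 : Filter ℕ), a n = 0
    · have h1 : ((fun n => a n / b n : ℕ → F) : Germ (𝒰 : Filter ℕ) F) = 0 := by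
        apply Germ.coe_eq.mpr
        filter_upwards [h0] with n hn
        rw [hn, zero_div]
      rw [h1, inv_zero]
      refine ⟨Submodule.span k {1}, Submodule.fg_span_singleton 1, fun _ => 0, fun _ => 1,
        fun _ => Submodule.zero_mem _, fun _ => Submodule.mem_span_singleton_self 1,
        fun _ => one_ne_zero, ?_⟩
      simp only [div_one]
      rfl
    · have h1 : ∀ᶠ n in (𝒰 : Filter ℕ), a n ≠ 0 := Ultrafilter.eventually_not.mpr h0
      refine ⟨Y, hY, b, fun n => if a n = 0 then b n else a n, hb, fun n => ?_, fun n => ?_, ?_⟩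
      · simp only; split_ifs
        · exact hb n
        · exact ha n
      · simp only; split_ifs with h
        · exact hb0 n
        · exact h
      · rw [← Germ.coe_inv]
        apply Germ.coe_eq.mpr
        filter_upwards [h1] with n hn
        simp only [Pi.inv_apply, if_neg hn, inv_div]

theorem mem_MF {x : Germ (𝒰 : Filter ℕ) F} : x ∈ MF k F 𝒰 ↔ Rep k 𝒰 x := Iff.rfl

theorem MF_of_space (Y : Submodule k F) (hY : Y.FG) (a : ℕ → F) (ha : ∀ n, a n ∈ Y) :
    (a : Germ (𝒰 : Filter ℕ) F) ∈ MF k F 𝒰 := by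
  refine ⟨Y ⊔ Submodule.span k {1}, hY.sup (Submodule.fg_span_singleton 1), a, fun _ => 1,
    fun n => (le_sup_left : Y ≤ _) (ha n),
    fun _ => (le_sup_right : Submodule.span k {(1 : F)} ≤ _) (Submodule.mem_span_singleton_self 1),
    fun _ => one_ne_zero, ?_⟩
  simp only [div_one]

theorem MF_const (c : F) : ((fun _ => c : ℕ → F) : Germ (𝒰 : Filter ℕ) F) ∈ MF k F 𝒰 :=
  MF_of_space 𝒰 (Submodule.span k {c}) (Submodule.fg_span_singleton c) _
    fun _ => Submodule.mem_span_singleton_self c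

/-- the derivation of germs -/
def Dg (D : Derivation k F F) : Germ (𝒰 : Filter ℕ) F →+ Germ (𝒰 : Filter ℕ) F where
  toFun := Germ.map D
  map_zero' := by
    change Germ.map D (((fun _ => 0 : ℕ → F)) : Germ (𝒰 : Filter ℕ) F) = 0
    rw [Germ.map_coe]
    apply Germ.coe_eq.mpr
    exact Eventually.of_forall fun n => by simp
  map_add' := by
    intro x y
    refine Germ.inductionOn₂ x y fun f g => ?_
    rw [← Germ.coe_add, Germ.map_coe, Germ.map_coe, Germ.map_coe, ← Germ.coe_add]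
    congr 1
    funext n
    simp

theorem Dg_coe (D : Derivation k F F) (f : ℕ → F) :
    Dg 𝒰 D (f : Germ (𝒰 : Filter ℕ) F) = ((fun n => D (f n) : ℕ → F) : Germ (𝒰 : Filter ℕ) F) := rfl

theorem Dg_mul (D : Derivation k F F) (x y : Germ (𝒰 : Filter ℕ) F) :
    Dg 𝒰 D (x * y) = Dg 𝒰 D x * y + x * Dg 𝒰 D y := by
  refine Germ.inductionOn₂ x y fun f g => ?_
  rw [← Germ.coe_mul, Dg_coe, Dg_coe, Dg_coe, ← Germ.coe_mul, ← Germ.coe_mul, ← Germ.coe_add]
  congr 1
  funext n
  simp only [Pi.mul_apply, Pi.add_apply, Derivation.leibniz, smul_eq_mul]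
  ring

theorem D_div (D : Derivation k F F) {a b : F} (hb : b ≠ 0) :
    D (a / b) = (b * D a - a * D b) / (b * b) := by
  have h1 : D a = D (a / b) * b + a / b * D b := by
    conv_lhs => rw [← div_mul_cancel₀ a hb]
    rw [Derivation.leibniz, smul_eq_mul, smul_eq_mul]
    ring
  rw [h1]
  field_simp
  ring

theorem Dg_mem (D : Derivation k F F) {x : Germ (𝒰 : Filter ℕ) F} (hx : x ∈ MF k F 𝒰) :
    Dg 𝒰 D x ∈ MF k F 𝒰 := by
  obtain ⟨Y, hY, a, b, ha, hb, hb0, rfl⟩ := hx
  set Z : Submodule k F := Y.map (D : F →ₗ[k] F) with hZ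
  have hZf : Z.FG := hY.map _
  have hYZ : (Y * Z ⊔ Y * Y).FG := (hY.mul hZf).sup (hY.mul hY)
  have hDm : ∀ y ∈ Y, D y ∈ Z := fun y hy => ⟨y, hy, rfl⟩
  refine ⟨Y * Z ⊔ Y * Y, hYZ, fun n => b n * D (a n) - a n * D (b n), fun n => b n * b n, fun n => ?_,
    fun n => ?_, fun n => mul_ne_zero (hb0 n) (hb0 n), ?_⟩
  · exact (le_sup_left : Y * Z ≤ _) ((Y * Z).sub_mem (Submodule.mul_mem_mul (hb n) (hDm _ (ha n)))
      (Submodule.mul_mem_mul (ha n) (hDm _ (hb n))))
  · exact (le_sup_right : Y * Y ≤ _) (Submodule.mul_mem_mul (hb n) (hb n))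
  · rw [Dg_coe]
    congr 1
    funext n
    exact D_div D (hb0 n)

theorem Dg_const (D : Derivation k F F) (hD : ∀ z, D z = 0 → ∃ a : k, algebraMap k F a = z)
    {x : Germ (𝒰 : Filter ℕ) F} (hx : Dg 𝒰 D x = 0) : x ∈ MF k F 𝒰 := by
  classical
  revert hx
  refine Germ.inductionOn x fun f => ?_
  intro hx
  have h1 : ∀ᶠ n in (𝒰 : Filter ℕ), D (f n) = 0 := Germ.coe_eq.mp hx
  set f' : ℕ → F := fun n => if D (f n) = 0 then f n else 0 with hf'
  have h2 : (f : Germ (𝒰 : Filter ℕ) F) = (f' : Germ (𝒰 : Filter ℕ) F) := by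
    apply Germ.coe_eq.mpr
    filter_upwards [h1] with n hn
    simp only [hf', if_pos hn]
  rw [h2]
  refine MF_of_space 𝒰 (Submodule.span k {1}) (Submodule.fg_span_singleton 1) _ fun n => ?_
  simp only [hf']
  split_ifs with h
  · obtain ⟨a, ha⟩ := hD _ h
    rw [← ha, Algebra.algebraMap_eq_smul_one]
    exact Submodule.smul_mem _ _ (Submodule.mem_span_singleton_self 1)
  · exact Submodule.zero_mem _

/-- logarithmic derivatives of the elements of a finitely generated group -/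
theorem logder_mem (D : Derivation k F F) (G : Subgroup Fˣ) (hG : G.FG) (g : ℕ → Fˣ)
    (hg : ∀ n, g n ∈ G) :
    Dg 𝒰 D ((fun n => (g n : F) : ℕ → F) : Germ (𝒰 : Filter ℕ) F) /
      ((fun n => (g n : F) : ℕ → F) : Germ (𝒰 : Filter ℕ) F) ∈ MF k F 𝒰 := by
  obtain ⟨S, hS⟩ := hG
  -- the logarithmic derivative
  let ℓ : Fˣ → F := fun u => D (u : F) / u
  have hl1 : ℓ 1 = 0 := by simp [ℓ]
  have hlm : ∀ u v, ℓ (u * v) = ℓ u + ℓ v := by
    intro u v
    have h1 := u.ne_zero
    have h2 := v.ne_zero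
    simp only [ℓ, Units.val_mul, Derivation.leibniz, smul_eq_mul]
    field_simp
    ring
  have hli : ∀ u, ℓ u⁻¹ = -ℓ u := by
    intro u
    have := hlm u u⁻¹
    rw [mul_inv_cancel, hl1] at this
    exact (neg_eq_of_add_eq_zero_right this.symm).symm
  set Y : Submodule k F := Submodule.span k (ℓ '' (S : Set Fˣ)) with hY
  have hYf : Y.FG := Submodule.fg_span ((S.finite_toSet).image _)
  have hmem : ∀ u ∈ G, ℓ u ∈ Y := by
    intro u hu
    rw [← hS] at hu
    induction hu using Subgroup.closure_induction with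
    | mem x hx => exact Submodule.subset_span ⟨x, hx, rfl⟩
    | one => rw [hl1]; exact Y.zero_mem
    | mul x y _ _ hx hy => rw [hlm]; exact Y.add_mem hx hy
    | inv x _ hx => rw [hli]; exact Y.neg_mem hx
  have := MF_of_space 𝒰 Y hYf (fun n => ℓ (g n)) fun n => hmem _ (hg n)
  rw [Dg_coe, ← Germ.coe_div]
  exact this

end Pool.Agent.K1H41.PA
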