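import Pool.Agent.K1H77.PA.Stm
import Pool.Agent.K1H41.PA.Germs

set_option autoImplicit false

/-! The unit equation: from the field of constants of a derivation to the field. -/

namespace Pool.Agent.K1H41.PA

open Filter Pool.Agent.K1H77.PA

/-- subgroups of finitely generated commutative groups -/
theorem fg_of_le {A : Type*} [CommGroup A] {G H : Subgroup A} (hG : G.FG) (h : H ≤ G) : H.FG := by
  have h1 : (AddSubgroup.toIntSubmodule (Subgroup.toAddSubgroup G)).FG := by
    rw [Submodule.fg_iff_addSubgroup_fg]
    have := (Subgroup.fg_iff_add_fg G).mp hG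
    simpa using this
  have : Module.Finite ℤ (AddSubgroup.toIntSubmodule (Subgroup.toAddSubgroup G)) :=
    Module.Finite.iff_fg.mpr h1
  have h2 : IsNoetherian ℤ (AddSubgroup.toIntSubmodule (Subgroup.toAddSubgroup G)) :=
    isNoetherian_of_isNoetherianRing_of_finite ℤ _
  have h3 : AddSubgroup.toIntSubmodule (Subgroup.toAddSubgroup H) ≤
      AddSubgroup.toIntSubmodule (Subgroup.toAddSubgroup G) := fun x hx => h hx
  have h4 : (AddSubgroup.toIntSubmodule (Subgroup.toAddSubgroup H)).FG := by
    have h5 := isNoetherian_of_le h3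
    exact Module.Finite.iff_fg.mp inferInstance
  rw [Submodule.fg_iff_addSubgroup_fg] at h4
  rw [Subgroup.fg_iff_add_fg]
  simpa using h4

/-- preimages of finitely generated groups under injective maps -/
theorem fg_comap {A B : Type*} [CommGroup A] [CommGroup B] (f : A →* B) (hf : Function.Injective f)
    {G : Subgroup B} (hG : G.FG) : (G.comap f).FG := by
  have h1 : ((G.comap f).map f).FG := fg_of_le hG (Subgroup.map_comap_le f G)
  rw [← Group.fg_iff_subgroup_fg] at h1 ⊢
  exact Group.fg_of_surjective (f := ((G.comap f).equivMapOfInjective f hf).symm.toMonoidHom)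
    ((G.comap f).equivMapOfInjective f hf).symm.surjective

theorem fg_map {A B : Type*} [CommGroup A] [CommGroup B] (f : A →* B)
    {G : Subgroup A} (hG : G.FG) : (G.map f).FG := by
  classical
  obtain ⟨S, hS⟩ := hG
  refine ⟨S.image f, ?_⟩
  rw [Finset.coe_image, ← MonoidHom.map_closure, hS]

/-- the same with any finite index type -/
theorem ULI.fin {L : Type} [Field L] (h : ULI L) (G : Subgroup Lˣ) (hG : G.FG)
    (𝒰 : Ultrafilter ℕ) {ι : Type*} [Fintype ι] (g : ι → ℕ → Lˣ) (hg : ∀ i n, g i n ∈ G)
    (hp : ∀ i j, i ≠ j → ∀ c : L, ¬ ∀ᶠ n in (𝒰 : Filter ℕ), (g i n : L) = c * g j n)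
    (c : ι → L) (hc : ∀ᶠ n in (𝒰 : Filter ℕ), ∑ i, c i * (g i n : L) = 0) : c = 0 := by
  have e := Fintype.equivFin ι
  have h1 := h G hG 𝒰 _ (fun i => g (e.symm i)) (fun i n => hg _ n)
    (fun i j hij => hp _ _ fun h => hij (e.symm.injective h)) (fun i => c (e.symm i)) (by
      filter_upwards [hc] with n hn
      rw [← hn]
      exact Equiv.sum_comp e.symm (fun i => c i * (g i n : L)))
  funext i
  have := congrFun h1 (e i)
  simpa using this

/-- subfields -/
theorem ULI.of_embed {L F : Type} [Field L] [Field F] (f : L →+* F) (h : ULI F) : ULI L := by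
  intro G hG 𝒰 m g hg hp c hc
  have hinj : Function.Injective f := f.injective
  have h1 := h (G.map (Units.map (f : L →* F))) (fg_map _ hG) 𝒰 m
    (fun i n => Units.map (f : L →* F) (g i n)) (fun i n => ⟨g i n, hg i n, rfl⟩) (by
      intro i j hij c hcon
      obtain ⟨n0, hn0⟩ := hcon.exists
      have h0 : f (g i n0) = c * f (g j n0) := hn0
      have hgj : f (g j n0) ≠ 0 := by
        rw [Ne, map_eq_zero]; exact (g j n0).ne_zero
      have hcf : c = f ((g i n0 : L) / g j n0) := by
        rw [map_div₀, h0, mul_div_cancel_right₀ _ hgj]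
      refine hp i j hij ((g i n0 : L) / g j n0) ?_
      filter_upwards [hcon] with n hn
      apply hinj
      rw [map_mul, ← hcf]
      exact hn) (fun i => f (c i)) (by
      filter_upwards [hc] with n hn
      have := congrArg f hn
      rw [map_sum, map_zero] at this
      rw [← this]
      refine Finset.sum_congr rfl fun i _ => ?_
      rw [map_mul]; rfl)
  funext i
  have := congrFun h1 i
  simpa using this

/-- **The unit equation: from the field of constants to the field** -/
theorem uli_of_der {k F : Type} [Field k] [Field F] [Algebra k F] [IsAlgClosed k]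
    (D : Derivation k F F) (hD : ∀ z, D z = 0 → ∃ a : k, algebraMap k F a = z) (h : ULI k) :
    ULI F := by
  classical
  intro G hG 𝒰 m g hgG hprop c hc
  set M := MF k F 𝒰 with hM
  let γ : Fin m → Germ (𝒰 : Filter ℕ) F := fun i => ((fun n => (g i n : F) : ℕ → F) : Germ _ F)
  have hγ0 : ∀ i, γ i ≠ 0 := by
    intro i h0
    have h1 : ∀ᶠ n in (𝒰 : Filter ℕ), (g i n : F) = 0 := Germ.coe_eq.mp h0
    obtain ⟨n, hn⟩ := h1.exists
    exact (g i n).ne_zero hn
  let cc : Fin m → Germ (𝒰 : Filter ℕ) F := fun i => ((fun _ => c i : ℕ → F) : Germ _ F)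
  have hccM : ∀ i, cc i ∈ M := fun i => MF_const 𝒰 (c i)
  -- the classes
  let S : Setoid (Fin m) :=
    { r := fun i j => γ i / γ j ∈ M
      iseqv :=
        { refl := fun i => by
            change γ i / γ i ∈ M
            rw [div_self (hγ0 i)]; exact M.one_mem
          symm := fun {i j} hij => by
            change γ j / γ i ∈ M
            have : γ j / γ i = (γ i / γ j)⁻¹ := (inv_div _ _).symm
            rw [this]; exact M.inv_mem hij
          trans := fun {i j l} h1 h2 => by
            change γ i / γ l ∈ M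
            have : γ i / γ l = γ i / γ j * (γ j / γ l) := by
              rw [div_mul_div_cancel₀ (hγ0 j)]
            rw [this]; exact M.mul_mem h1 h2 } }
  let rp : Quotient S → Fin m := Quotient.out
  have hrp : ∀ i, γ i / γ (rp (Quotient.mk S i)) ∈ M := by
    intro i
    have : (Quotient.mk S (rp (Quotient.mk S i))) = Quotient.mk S i := Quotient.out_eq _
    exact Setoid.symm (Quotient.exact this)
  have hsumγ : ∑ i, cc i * γ i = 0 := by
    have h1 : (∑ i, cc i * γ i : Germ (𝒰 : Filter ℕ) F) =
        ((fun n => ∑ i, c i * (g i n : F) : ℕ → F) : Germ _ F) := by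
      have h2 : (fun n => ∑ i, c i * (g i n : F) : ℕ → F) =
          ∑ i, ((fun _ => c i : ℕ → F) * fun n => (g i n : F)) := by
        funext n
        rw [Finset.sum_apply]
        rfl
      rw [h2]
      change _ = Germ.coeRingHom (𝒰 : Filter ℕ) _
      rw [map_sum]
      refine Finset.sum_congr rfl fun i _ => ?_
      rw [map_mul]
      rfl
    rw [h1]
    apply Germ.coe_eq.mpr
    filter_upwards [hc] with n hn
    rw [hn]
  -- classes have vanishing partial sums
  have key : ∀ q : Quotient S, ∑ i ∈ Finset.univ.filter (fun i => Quotient.mk S i = q),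
      cc i * γ i = 0 := by
    intro q
    have hcoef : ∀ q : Quotient S, ∑ i ∈ Finset.univ.filter (fun i => Quotient.mk S i = q),
        cc i * (γ i / γ (rp q)) ∈ M := by
      intro q
      refine M.sum_mem fun i hi => ?_
      rw [Finset.mem_filter] at hi
      have := hrp i
      rw [hi.2] at this
      exact M.mul_mem (hccM i) this
    have hz := linInd_of_der (Dg 𝒰 D) (Dg_mul 𝒰 D) M (fun x hx => Dg_mem 𝒰 D hx)
      (fun x hx => Dg_const 𝒰 D hD hx) (fun q : Quotient S => γ (rp q)) (fun q => hγ0 _)
      (fun q => logder_mem 𝒰 D G hG (g (rp q)) (hgG _)) (by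
        intro q q' hqq' hmem
        apply hqq'
        have h1 : Quotient.mk S (rp q) = Quotient.mk S (rp q') := Quotient.sound hmem
        rwa [Quotient.out_eq, Quotient.out_eq] at h1) Finset.univ
      (fun q => ∑ i ∈ Finset.univ.filter (fun i => Quotient.mk S i = q), cc i * (γ i / γ (rp q)))
      hcoef (by
        rw [← hsumγ, ← Finset.sum_fiberwise Finset.univ (Quotient.mk S) (fun i => cc i * γ i)]
        refine Finset.sum_congr rfl fun q _ => ?_
        rw [Finset.sum_mul]
        refine Finset.sum_congr rfl fun i _ => ?_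
        rw [mul_assoc, div_mul_cancel₀ _ (hγ0 _)]) q (Finset.mem_univ q)
    have h2 : ∑ i ∈ Finset.univ.filter (fun i => Quotient.mk S i = q), cc i * γ i =
        (∑ i ∈ Finset.univ.filter (fun i => Quotient.mk S i = q), cc i * (γ i / γ (rp q))) *
          γ (rp q) := by
      rw [Finset.sum_mul]
      refine Finset.sum_congr rfl fun i _ => ?_
      rw [mul_assoc, div_mul_cancel₀ _ (hγ0 _)]
    rw [h2, hz, zero_mul]
  -- back to sequences
  have key2 : ∀ q : Quotient S, ∀ᶠ n in (𝒰 : Filter ℕ),
      ∑ i ∈ Finset.univ.filter (fun i => Quotient.mk S i = q), c i * (g i n : F) = 0 := by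
    intro q
    have h1 := key q
    have h2 : (∑ i ∈ Finset.univ.filter (fun i => Quotient.mk S i = q), cc i * γ i :
        Germ (𝒰 : Filter ℕ) F) =
        ((fun n => ∑ i ∈ Finset.univ.filter (fun i => Quotient.mk S i = q),
          c i * (g i n : F) : ℕ → F) : Germ _ F) := by
      have h3 : (fun n => ∑ i ∈ Finset.univ.filter (fun i => Quotient.mk S i = q),
          c i * (g i n : F) : ℕ → F) =
          ∑ i ∈ Finset.univ.filter (fun i => Quotient.mk S i = q),
            ((fun _ => c i : ℕ → F) * fun n => (g i n : F)) := by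
        funext n
        rw [Finset.sum_apply]
        rfl
      rw [h3]
      change _ = Germ.coeRingHom (𝒰 : Filter ℕ) _
      rw [map_sum]
      refine Finset.sum_congr rfl fun i _ => ?_
      rw [map_mul]
      rfl
    rw [h2] at h1
    exact Germ.coe_eq.mp h1
  -- inside one class
  have hstep : ∀ i, ∃ hh ∈ G, ∀ᶠ n in (𝒰 : Filter ℕ), ∃ a : k,
      ((g i n / g (rp (Quotient.mk S i)) n : Fˣ) : F) = (hh : F) * algebraMap k F a := by
    intro i
    obtain ⟨Y, hY, a, b, ha, hb, hb0, hab⟩ := hrp i
    refine stepB G hG 𝒰 Y hY (fun n => g i n / g (rp (Quotient.mk S i)) n)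
      (fun n => G.div_mem (hgG _ _) (hgG _ _)) ?_
    have h1 : ((fun n => (g i n : F) / g (rp (Quotient.mk S i)) n : ℕ → F) :
        Germ (𝒰 : Filter ℕ) F) = ((fun n => a n / b n : ℕ → F) : Germ _ F) := hab
    have h2 := Germ.coe_eq.mp h1
    filter_upwards [h2] with n hn
    refine ⟨a n, ha n, b n, hb n, hb0 n, ?_⟩
    rw [Units.val_div_eq_div_val]
    exact hn
  choose hh hhG hhev using hstep
  -- the constants
  have hκ : ∀ i, ∃ κ : ℕ → kˣ, ∀ᶠ n in (𝒰 : Filter ℕ), (g i n : F) =
      (hh i : F) * algebraMap k F (κ n) * g (rp (Quotient.mk S i)) n := by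
    intro i
    have h1 : ∀ n, ∃ κ : kˣ, (∃ a : k, ((g i n / g (rp (Quotient.mk S i)) n : Fˣ) : F) =
        (hh i : F) * algebraMap k F a) → (g i n : F) =
        (hh i : F) * algebraMap k F κ * g (rp (Quotient.mk S i)) n := by
      intro n
      by_cases hex : ∃ a : k, ((g i n / g (rp (Quotient.mk S i)) n : Fˣ) : F) =
        (hh i : F) * algebraMap k F a
      · obtain ⟨a, ha⟩ := hex
        have ha0 : a ≠ 0 := by
          rintro rfl
          rw [map_zero, mul_zero] at ha
          exact (Units.ne_zero _) ha
        refine ⟨Units.mk0 a ha0, fun _ => ?_⟩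
        rw [Units.val_mk0, ← ha, Units.val_div_eq_div_val, div_mul_cancel₀]
        exact Units.ne_zero _
      · exact ⟨1, fun h => absurd h hex⟩
    choose κ hκ using h1
    refine ⟨κ, ?_⟩
    filter_upwards [hhev i] with n hn
    exact hκ n hn
  choose κ hκ using hκ
  set G0 : Subgroup kˣ := G.comap (Units.map (algebraMap k F : k →* F)) with hG0
  have hG0f : G0.FG := by
    apply fg_comap _ _ hG
    exact Units.map_injective (algebraMap k F).injective
  have hκG : ∀ i, ∀ᶠ n in (𝒰 : Filter ℕ), κ i n ∈ G0 := by
    intro i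
    filter_upwards [hκ i] with n hn
    change Units.map (algebraMap k F : k →* F) (κ i n) ∈ G
    have h1 : Units.map (algebraMap k F : k →* F) (κ i n) =
        g i n / (hh i * g (rp (Quotient.mk S i)) n) := by
      rw [eq_div_iff_mul_eq']
      ext
      push_cast
      rw [hn]
      simp only [Units.coe_map, MonoidHom.coe_coe]
      ring
    rw [h1]
    exact G.div_mem (hgG _ _) (G.mul_mem (hhG _) (hgG _ _))
  -- modify κ so that it is always in G0
  set κ' : Fin m → ℕ → kˣ := fun i n => if κ i n ∈ G0 then κ i n else 1 with hκ'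
  have hκ'G : ∀ i n, κ' i n ∈ G0 := by
    intro i n
    simp only [hκ']
    split_ifs with h
    · exact h
    · exact G0.one_mem
  have hκ'e : ∀ i, ∀ᶠ n in (𝒰 : Filter ℕ), (g i n : F) =
      (hh i : F) * algebraMap k F (κ' i n) * g (rp (Quotient.mk S i)) n := by
    intro i
    filter_upwards [hκ i, hκG i] with n hn hn'
    simp only [hκ', if_pos hn']
    exact hn
  funext i0
  set q := Quotient.mk S i0 with hq
  -- the linear relation over F with unknowns in k
  have hrel : ∀ᶠ n in (𝒰 : Filter ℕ),
      ∑ i : {i // Quotient.mk S i = q}, (c i * hh i : F) * algebraMap k F (κ' i n) = 0 := by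
    have hall : ∀ᶠ n in (𝒰 : Filter ℕ), ∀ i, (g i n : F) =
        (hh i : F) * algebraMap k F (κ' i n) * g (rp (Quotient.mk S i)) n :=
      eventually_all.mpr hκ'e
    filter_upwards [key2 q, hall] with n h1 h2
    have h3 : (∑ i : {i // Quotient.mk S i = q}, (c i * hh i : F) * algebraMap k F (κ' i n)) *
        g (rp q) n = 0 := by
      rw [← h1, Finset.sum_mul, ← Finset.sum_subtype_eq_sum_filter]
      rw [Finset.subtype_univ]
      refine Finset.sum_congr rfl fun i _ => ?_
      rw [h2 i.1, i.2]
      ring
    exact (mul_eq_zero.mp h3).resolve_right (Units.ne_zero _)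
  have hzero : ∀ l : F →ₗ[k] k, ∀ i : {i // Quotient.mk S i = q}, l (c i * hh i) = 0 := by
    intro l
    have := ULI.fin h G0 hG0f 𝒰 (ι := {i // Quotient.mk S i = q}) (fun i => κ' i.1)
      (fun i n => hκ'G _ _) (by
        intro i j hij a hcon
        have hij' : (i : Fin m) ≠ j := fun h => hij (Subtype.ext h)
        refine hprop i j hij' ((hh i : F) * algebraMap k F a / hh j) ?_
        filter_upwards [hcon, hκ'e i, hκ'e j] with n h1 h2 h3
        rw [h2, h3, i.2, j.2, h1, map_mul]
        have := (hh j).ne_zero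
        field_simp) (fun i => l (c i * hh i)) (by
        filter_upwards [hrel] with n hn
        have h1 := congrArg l hn
        rw [map_sum, map_zero] at h1
        rw [← h1]
        refine Finset.sum_congr rfl fun i _ => ?_
        rw [mul_comm (c i * hh i : F), ← Algebra.smul_def, map_smul, smul_eq_mul, mul_comm])
    intro i
    exact congrFun this i
  have hci : (c i0 * hh i0 : F) = 0 := by
    rw [← Module.forall_dual_apply_eq_zero_iff k]
    intro l
    exact hzero l ⟨i0, rfl⟩
  exact (mul_eq_zero.mp hci).resolve_right (hh i0).ne_zero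

end Pool.Agent.K1H41.PA
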