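import Mathlib

set_option autoImplicit false

/-! Linear independence over a differential subfield (unit equation, function field step). -/

namespace Pool.Agent.K1H41.PA

open Finset

/-- Elements with logarithmic derivatives in a differential subfield `M` which contains all the
constants, and with all the ratios outside of `M`, are linearly independent over `M`. -/
theorem linInd_of_der {K : Type*} [Field K] (D : K →+ K)
    (hmul : ∀ x y, D (x * y) = D x * y + x * D y)
    (M : Subfield K) (hM : ∀ x ∈ M, D x ∈ M) (hC : ∀ x, D x = 0 → x ∈ M)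
    {ι : Type*} (g : ι → K) (hg : ∀ i, g i ≠ 0) (hl : ∀ i, D (g i) / g i ∈ M)
    (hr : ∀ i j, i ≠ j → g i / g j ∉ M) (s : Finset ι) :
    ∀ c : ι → K, (∀ i, c i ∈ M) → ∑ i ∈ s, c i * g i = 0 → ∀ i ∈ s, c i = 0 := by
  classical
  have hD1 : D 1 = 0 := by
    have := hmul 1 1
    rw [mul_one, mul_one, one_mul] at this
    linear_combination -this
  have hquot : ∀ x y : K, y ≠ 0 → D (x / y) = (D x - x / y * D y) / y := by
    intro x y hy
    have h1 : D x = D (x / y) * y + x / y * D y := by
      rw [← hmul, div_mul_cancel₀ _ hy]
    rw [h1]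
    field_simp
    ring
  induction s using Finset.strongInduction with
  | H s ih =>
    intro c hc hsum
    by_contra hcon
    push Not at hcon
    obtain ⟨i0, hi0, hci0⟩ := hcon
    set b : ι → K := fun i => c i / c i0 with hb
    have hbM : ∀ i, b i ∈ M := fun i => M.div_mem (hc i) (hc i0)
    have hb0 : b i0 = 1 := div_self hci0
    set e : ι → K := fun i => D (b i) + b i * (D (g i) / g i - D (g i0) / g i0) with he
    have heM : ∀ i, e i ∈ M := fun i =>
      M.add_mem (hM _ (hbM i)) (M.mul_mem (hbM i) (M.sub_mem (hl i) (hl i0)))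
    have hDf : ∀ i, D (b i * g i / g i0) = e i * g i / g i0 := by
      intro i
      rw [hquot _ _ (hg i0), hmul]
      simp only [he]
      have h1 := hg i
      have h2 := hg i0
      field_simp
      ring
    have hsum1 : ∑ i ∈ s, b i * g i / g i0 = 0 := by
      have : ∑ i ∈ s, b i * g i / g i0 = (∑ i ∈ s, c i * g i) / c i0 / g i0 := by
        rw [Finset.sum_div, Finset.sum_div]
        refine Finset.sum_congr rfl fun i _ => ?_
        simp only [hb]
        ring
      rw [this, hsum]
      simp
    have hsum2 : ∑ i ∈ s, e i * g i / g i0 = 0 := by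
      have := congrArg D hsum1
      rw [map_sum, map_zero] at this
      rw [← this]
      exact Finset.sum_congr rfl fun i _ => (hDf i).symm
    have hsum3 : ∑ i ∈ s, e i * g i = 0 := by
      rw [← Finset.sum_div] at hsum2
      exact (div_eq_zero_iff.mp hsum2).resolve_right (hg i0)
    have he0 : e i0 = 0 := by
      simp only [he, hb0, hD1]
      ring
    have hsum4 : ∑ i ∈ s.erase i0, e i * g i = 0 := by
      rw [← Finset.add_sum_erase _ _ hi0, he0, zero_mul, zero_add] at hsum3
      exact hsum3
    have hez := ih (s.erase i0) (Finset.erase_ssubset hi0) e heM hsum4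
    have hbz : ∀ i ∈ s.erase i0, b i = 0 := by
      intro i hi
      by_contra hbi
      have h1 : D (b i * g i / g i0) = 0 := by
        rw [hDf, hez i hi, zero_mul, zero_div]
      have h2 := hC _ h1
      have h3 : g i / g i0 = (b i * g i / g i0) / b i := by
        field_simp
      exact hr i i0 (Finset.ne_of_mem_erase hi) (h3 ▸ M.div_mem h2 (hbM i))
    have h5 : ∑ i ∈ s, b i * g i / g i0 = 1 := by
      rw [← Finset.add_sum_erase _ _ hi0, hb0, one_mul, div_self (hg i0),
        Finset.sum_eq_zero fun i hi => by rw [hbz i hi, zero_mul, zero_div], add_zero]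
    rw [h5] at hsum1
    exact one_ne_zero hsum1

end Pool.Agent.K1H41.PA
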