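import Pool.Agent.K1H41.PA.Step
import Pool.Agent.R351.Der

set_option autoImplicit false

/-! The unit equation in characteristic zero from the case of algebraic numbers. -/

namespace Pool.Agent.K1H41.PA

open Filter Pool.Agent.K1H77.PA
open scoped IntermediateField.algebraAdjoinAdjoin

theorem t_ULI_STEP : S_ULI_STEP := by
  intro k F _ _ _ _ _ _ t halg h
  have : CharZero F := charZero_of_injective_algebraMap (algebraMap k F).injective
  by_cases ht : IsAlgebraic k t
  · -- then `F = k`
    obtain ⟨a, ha⟩ := mem_range_of_integral ht.isIntegral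
    have hsurj : Function.Surjective (algebraMap k F) := by
      intro x
      have hbot : IntermediateField.adjoin k {t} = ⊥ := by
        rw [← ha]; exact IntermediateField.adjoin_simple_eq_bot_iff.mpr ⟨a, rfl⟩
      have hx : IsAlgebraic (IntermediateField.adjoin k {t}) x := halg.isAlgebraic x
      rw [hbot] at hx
      have hx' : IsIntegral (⊥ : IntermediateField k F) x := hx.isIntegral
      have h2 : IsIntegral k x := isIntegral_trans x hx'
      exact mem_range_of_integral h2
    let e : k ≃+* F := RingEquiv.ofBijective (algebraMap k F) ⟨(algebraMap k F).injective, hsurj⟩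
    exact ULI.of_embed (e.symm : F →+* k) h
  · have hx : AlgebraicIndependent k (fun _ : Unit => t) := by
      rw [algebraicIndependent_unique_type_iff]; exact ht
    obtain ⟨D, hD⟩ := Pool.Agent.R351.exists_der_values (fun _ : Unit => t) hx (fun _ => 1)
    refine uli_of_der D (fun z hz => ?_) h
    have hzalg : ∀ z : F, IsAlgebraic (Algebra.adjoin k (Set.range fun _ : Unit => t)) z := by
      intro z
      have h1 : IsAlgebraic (IntermediateField.adjoin k {t}) z := halg.isAlgebraic z
      have h2 : (Set.range fun _ : Unit => t) = {t} := by ext; simp [eq_comm]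
      rw [h2]
      exact (IsFractionRing.isAlgebraic_iff (Algebra.adjoin k {t}) (IntermediateField.adjoin k {t})
        F).mpr h1
    have h3 : IsAlgebraic k z := by
      apply Pool.Agent.R351.algebraic_of_der_zero z
      intro E
      have h4 : (E - E t • D) z = 0 := by
        apply Pool.Agent.R351.der_zero_of_algebraic (fun _ : Unit => t) _ _ z (hzalg z)
        intro _
        rw [Derivation.sub_apply, Derivation.smul_apply, hD (), smul_eq_mul, mul_one, sub_self]
      rw [Derivation.sub_apply, Derivation.smul_apply, hz, smul_zero, sub_zero] at h4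
      exact h4
    exact mem_range_of_integral h3.isIntegral

theorem uli_up (k L : Type) [Field k] [IsAlgClosed k] [Field L] [CharZero L] [Algebra k L]
    (h : ULI k) : ULI L := by
  let P := MvPolynomial ℕ L
  let C := FractionRing (MvPolynomial ℕ L)
  have : CharZero (FractionRing (MvPolynomial ℕ L)) :=
    charZero_of_injective_algebraMap (algebraMap L _).injective
  have hX : AlgebraicIndependent k (fun i : ℕ => algebraMap (MvPolynomial ℕ L)
      (FractionRing (MvPolynomial ℕ L)) (MvPolynomial.X i)) := by
    have h1 : AlgebraicIndependent L (fun i : ℕ => (MvPolynomial.X i : MvPolynomial ℕ L)) :=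
      MvPolynomial.algebraicIndependent_X ℕ L
    have h2 : AlgebraicIndependent L (fun i : ℕ => algebraMap (MvPolynomial ℕ L)
      (FractionRing (MvPolynomial ℕ L)) (MvPolynomial.X i)) :=
      h1.map' (f := IsScalarTower.toAlgHom L (MvPolynomial ℕ L) (FractionRing (MvPolynomial ℕ L)))
        (IsFractionRing.injective _ _)
    exact h2.restrictScalars (algebraMap k L).injective
  obtain ⟨D, hD⟩ := Pool.Agent.R351.exists_der_const (κ := k)
      (C := FractionRing (MvPolynomial ℕ L)) (by
    intro s hs halg
    have h1 : Algebra.trdeg k (FractionRing (MvPolynomial ℕ L)) ≤ Cardinal.mk s :=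
      Algebra.IsAlgebraic.trdeg_le_cardinalMk k s
    have h2 := hX.lift_cardinalMk_le_trdeg
    have h3 : Cardinal.mk s < Cardinal.aleph0 := Cardinal.lt_aleph0_iff_set_finite.mpr hs
    rw [Cardinal.mk_nat] at h2
    simp only [Cardinal.lift_id] at h2
    exact absurd (h2.trans h1) (not_le.mpr h3))
  have h4 : ULI (FractionRing (MvPolynomial ℕ L)) := uli_of_der D hD h
  exact ULI.of_embed (algebraMap L (FractionRing (MvPolynomial ℕ L))) h4

/-- all fields of characteristic zero at once -/
theorem t_ULI (hQ : S_ULI_Q) : S_ULI := by
  intro L _ _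
  have hA : Algebra.IsAlgebraic ℚ (AlgebraicClosure ℚ) := by
    have e : (DivisionRing.toRatAlgebra : Algebra ℚ (AlgebraicClosure ℚ)) =
      (AlgebraicClosure.instAlgebra ℚ : Algebra ℚ (AlgebraicClosure ℚ)) := Subsingleton.elim _ _
    have := AlgebraicClosure.isAlgebraic ℚ
    rw [← e] at this
    exact this
  let ι : AlgebraicClosure ℚ →ₐ[ℚ] AlgebraicClosure L := IsAlgClosed.lift
  let _ : Algebra (AlgebraicClosure ℚ) (AlgebraicClosure L) := ι.toRingHom.toAlgebra
  exact ULI.of_embed (algebraMap L (AlgebraicClosure L)) (uli_up (AlgebraicClosure ℚ) _ hQ)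

end Pool.Agent.K1H41.PA
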